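import Pool.Agent.T2h25.Iv.P
import Pool.Agent.T2h25.Iv.Q
import Pool.Agent.T2h25.Iv.J
import Pool.Agent.T2h25.Iv.Ball

/-!
# Ivrii's conjecture: the sharp dimension of sets of periodic points

The phase space of a billiard in `ℝ^d` has dimension `2 d - 2`. The starting files
`ThreeCurvedAllDimensions`, `FourBounces` and `WeakFocusing` prove that certain sets of periodic
points have measure zero. Here we prove that these sets are `(2 d - 3)`-rectifiable: they are
covered by countably many Lipschitz images of `ℝ^(2d-3)`. In particular they have Hausdorff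
dimension at most `2 d - 3`, and are countable unions of sets of finite `(2 d - 3)`-dimensional
measure. This is sharp, already for the unit ball.

Definitions of the starting files (`Pool/Agent/H721R2/Ivrii/Def.lean`,
`Pool/Agent/H721R2/Quart/Per.lean`, `Pool/Agent/TH318/IvDef.lean`), for a set `Ω` (the table):

* `PerMod Γ Ω`: the phase points whose trajectory is periodic modulo an isometry `g ∈ Γ`, with any
  number of bounces in a period, at most three of which are at points of nonzero curvature;
* `PerFour Ω`: the phase points whose trajectory is closed after four bounces;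
* `WeakPer Γ Ω`: the phase points whose trajectory is periodic modulo an isometry `g ∈ Γ` and
  has weak focusing off one bounce (a Lyapunov type inequality for the curvatures);
* `FewPer Γ Ω`: the same with at most one focusing bounce in a period (at most two if the isometry
  followed by the reflections changes the orientation iff `d` is odd);
* `TotPer Γ Ω`: the same with the total focusing off one bounce less than `4 / ℓ` (`16 / ℓ`), where
  `ℓ` is the length of the period.

## Outline of the proof

The proofs of the starting files differentiate relations which hold on a set of positive measure at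
its points of density. Here the ideal of null sets is replaced by the ideal of rectifiable sets: the
set of the zeros of a function at which it is differentiable with nonvanishing derivative is
`(m - 1)`-rectifiable in a space of dimension `m` (`sm_bad`), as it satisfies a cone condition. The
rectifiable sets are the null sets of a measure (`smM`), with values `0` and `∞`, so that the
arguments of the starting files carry over. The charts of the phase space are Lipschitz.

For the ball, the regular triangles (squares) inscribed in the sphere are periodic orbits. The set of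
their phase points projects onto an open set of a space of dimension `2 d - 3` (`tri_pos`).
-/

set_option autoImplicit false

open MeasureTheory
open scoped NNReal ENNReal
open Pool.Agent.H721R2.Ivrii Pool.Agent.H721R2.Quart Pool.Agent.TH318.Iv
open Pool.Agent.T2h25.Iv

namespace Pool.Agent.Results.MP_249f74_an.SharpDimension

/-- Euclidean space. -/
abbrev E (d : ℕ) : Type := EuclideanSpace ℝ (Fin d)

/-- The set `S` is covered by countably many Lipschitz images of `ℝ^m`. -/
def Rectifiable (m : ℕ) {d : ℕ} (S : Set (E d × E d)) : Prop :=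
  ∃ f : ℕ → E m → E d × E d, (∀ i, ∃ K : ℝ≥0, LipschitzWith K (f i)) ∧ S ⊆ ⋃ i, Set.range (f i)

/-- The set `S` has dimension at most `m` and is a countable union of sets of finite
`m`-dimensional Hausdorff measure. -/
def SigmaFin (m : ℕ) {d : ℕ} (S : Set (E d × E d)) : Prop :=
  dimH S ≤ (m : ℝ≥0∞) ∧
    ∃ T : ℕ → Set (E d × E d), S ⊆ ⋃ i, T i ∧ ∀ i, μH[(m : ℝ)] (T i) < ⊤

/-- The set `S` has dimension exactly `m` and positive `m`-dimensional Hausdorff measure. -/
def ExactDim (m : ℕ) {d : ℕ} (S : Set (E d × E d)) : Prop :=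
  0 < μH[(m : ℝ)] S ∧ dimH S = (m : ℝ≥0∞)

/-- The phase points whose trajectory is periodic modulo some `g ∈ Γ`, with any number of bounces in
a period, and which have at most three bounces of nonzero curvature in a period or weak focusing. -/
def Restricted {d : ℕ} (Γ : Set (E d ≃ᵃⁱ[ℝ] E d)) (Ω : Set (E d)) : Set (E d × E d) :=
  PerMod Γ Ω ∪ WeakPer Γ Ω ∪ FewPer Γ Ω ∪ TotPer Γ Ω

/-- For `d ≥ 2`: for every table `Ω` and every countable set `Γ` of isometries preserving `Ω`, the
set `Restricted Γ Ω` is `(2 d - 3)`-rectifiable; so is the set of the phase points closed after four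
bounces if `d ≥ 3`. Rectifiable sets have dimension at most `m` and are countable unions of sets of
finite `m`-dimensional measure. For the unit ball the dimension is exactly `2 d - 3`. -/
theorem result (d : ℕ) (hd : 2 ≤ d) :
    (∀ (Ω : Set (E d)) (Γ : Set (E d ≃ᵃⁱ[ℝ] E d)), Γ.Countable → (∀ g ∈ Γ, g ⁻¹' Ω = Ω) →
      Rectifiable (2 * d - 3) (Restricted Γ Ω)) ∧
    (3 ≤ d → ∀ Ω : Set (E d), Rectifiable (2 * d - 3) (PerFour Ω)) ∧
    (∀ (m : ℕ) (S : Set (E d × E d)), Rectifiable m S → SigmaFin m S) ∧
    ExactDim (2 * d - 3) (PerMod {AffineIsometryEquiv.refl ℝ (E d)} (Metric.ball (0 : E d) 1)) ∧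
    (3 ≤ d → ExactDim (2 * d - 3) (PerFour (Metric.ball (0 : E d) 1))) := by
  have hfr : Module.finrank ℝ (E d) = d := finrank_euclideanSpace_fin
  have h1 : ∀ (Ω : Set (E d)) (Γ : Set (E d ≃ᵃⁱ[ℝ] E d)), Γ.Countable →
      (∀ g ∈ Γ, g ⁻¹' Ω = Ω) →
      Rectifiable (2 * d - 3) (Restricted Γ Ω) := by
    intro Ω Γ hΓ hinv
    have e1 : smM (E d × E d) (2 * d - 3) (PerMod Γ Ω) = 0 := by
      rcases Nat.lt_or_ge d 3 with h | h
      · have h2 : d = 2 := by omega
        subst h2
        exact perMod_nullS_of_isom Complex.orthonormalBasisOneI.repr.symm Ω Γ hΓ hinv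
      · have h3 := perMod_null_dimS (E := E d) (by rw [hfr]; exact h) Ω Γ hΓ hinv
        rwa [hfr] at h3
    have e2 : smM (E d × E d) (2 * d - 3) (WeakPer Γ Ω) = 0 := by
      have h3 := weakPer_nullJ (E := E d) (by rw [hfr]; exact hd) Ω Γ hΓ hinv
      rwa [hfr] at h3
    have e3 : smM (E d × E d) (2 * d - 3) (FewPer Γ Ω) = 0 :=
      measure_mono_null (few_sub (by rw [hfr]; exact hd) Ω Γ hinv) e2
    have e4 : smM (E d × E d) (2 * d - 3) (TotPer Γ Ω) = 0 :=
      measure_mono_null (tot_sub (by rw [hfr]; exact hd) Ω Γ) e2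
    exact smM_eq_zero.1 (measure_union_null (measure_union_null (measure_union_null e1 e2) e3) e4)
  have h2 : 3 ≤ d → ∀ Ω : Set (E d), Rectifiable (2 * d - 3) (PerFour Ω) := by
    intro h Ω
    have h3 := perFour_nullS (E := E d) (by rw [hfr]; exact h) Ω
    rw [hfr] at h3
    exact smM_eq_zero.1 h3
  have h3 : ∀ (m : ℕ) (S : Set (E d × E d)), Rectifiable m S → SigmaFin m S := by
    intro m S hS
    have hS' : Sm m S := hS
    exact ⟨hS'.dimH_le, hS'.sigmaFinite⟩
  have hge : ∀ S : Set (E d × E d), 0 < μH[((2 * d - 3 : ℕ) : ℝ)] S →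
      ((2 * d - 3 : ℕ) : ℝ≥0∞) ≤ dimH S := by
    intro S hS
    have := le_dimH_of_hausdorffMeasure_ne_zero (s := S) (d := ((2 * d - 3 : ℕ) : ℝ≥0))
      (by rw [NNReal.coe_natCast]; exact hS.ne')
    simpa using this
  have hm : ∃ m, d = m + 2 := ⟨d - 2, by omega⟩
  obtain ⟨m, rfl⟩ := hm
  have hm2 : 2 * (m + 2) - 3 = 2 * m + 1 := by omega
  have b1 : 0 < μH[((2 * (m + 2) - 3 : ℕ) : ℝ)]
      (PerMod {AffineIsometryEquiv.refl ℝ (E (m + 2))} (Metric.ball (0 : E (m + 2)) 1)) := by
    rw [hm2]
    refine tri_pos (m := m) hfr ?_ fun q w hq hw h => tri_mem hq hw h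
    refine (Real.cos_pos_of_mem_Ioo ⟨?_, ?_⟩).ne'
    · have := Real.pi_pos; push_cast; linarith
    · have := Real.pi_pos; push_cast; linarith
  have b2 : 0 < μH[((2 * (m + 2) - 3 : ℕ) : ℝ)] (PerFour (Metric.ball (0 : E (m + 2)) 1)) := by
    rw [hm2]
    refine tri_pos (m := m) hfr ?_ fun q w hq hw h => four_mem hq hw h
    refine (Real.cos_pos_of_mem_Ioo ⟨?_, ?_⟩).ne'
    · have := Real.pi_pos; push_cast; linarith
    · have := Real.pi_pos; push_cast; linarith
  refine ⟨h1, h2, h3, ⟨b1, le_antisymm ?_ (hge _ b1)⟩, fun h => ⟨b2, le_antisymm ?_ (hge _ b2)⟩⟩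
  · refine (dimH_mono ?_).trans (h3 _ _ (h1 (Metric.ball 0 1) {AffineIsometryEquiv.refl ℝ _}
      (Set.countable_singleton _) ?_)).1
    · exact fun x hx => Or.inl (Or.inl (Or.inl hx))
    · rintro g hg
      rw [Set.mem_singleton_iff] at hg
      rw [hg]
      rfl
  · exact (h3 _ _ (h2 h _)).1

end Pool.Agent.Results.MP_249f74_an.SharpDimension
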